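import Pool.Agent.Helper23.EC.DGoalsA

/-!
# Packet A4 of MP_ecc237_nt, Part D: the four-point identity (D.4).
-/

set_option autoImplicit false

open EC237

namespace Pool.Agent.Helper18.EC.D_A4

variable {F : Type*} [Field F]

/-- (★) -/
lemma star {A1 A2 B1 B2 As Bs L1 L2 : F} (rA : As * (A1 + A2) = A1 * A2)
    (rB : Bs * (B1 + B2) = B1 * B2) (h1 : L1 * B1 = 1) (h2 : L2 * B2 = 1)
    (hs : (L1 + L2) * Bs = 1) :
    (A1 * B2 - B1 * A2) * (As * Bs) * (A1 * L1 + A2 * L2 + As * (L1 + L2)) =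
      A1 * A2 * (A1 * B2 - B1 * A2) - As * Bs * (A1 ^ 2 - A2 ^ 2) +
        As ^ 2 * (A1 * B1 - A2 * B2) := by
  linear_combination (As * A1 ^ 2 * L1 - As * A2 ^ 2 * L2) * rB +
    (As * A1 ^ 2 * (B2 - Bs) - As * Bs * A1 * A2) * h1 +
    (As * Bs * A1 * A2 - As * A2 ^ 2 * (B1 - Bs)) * h2 +
    ((A1 * B2 - B1 * A2) * As ^ 2) * hs + ((A1 * B2 - B1 * A2) + As * (B2 - B1)) * rA

/-- `f12` -/
def ff (A1 A2 B1 B2 As Bs : F) : F :=
  A1 * B1 * (A2 ^ 2 + B2 ^ 2) - A2 * B2 * (A1 ^ 2 + B1 ^ 2) +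
    (A2 * B2 * (As ^ 2 + Bs ^ 2) - As * Bs * (A2 ^ 2 + B2 ^ 2)) +
    (As * Bs * (A1 ^ 2 + B1 ^ 2) - A1 * B1 * (As ^ 2 + Bs ^ 2))

/-- `Z(A,B)` -/
def ZZ (A1 A2 A3 A4 B1 B2 B3 B4 : F) : F :=
  -(1 / 3) * (A1 * B2 - B1 * A2) * (A3 * B4 - B3 * A4) * (A1 * A2 + A3 * A4) +
    1 / 6 * (A1 * A2 * (A1 * B2 - B1 * A2) * (A3 * B3 - A4 * B4) +
      A3 * A4 * (A3 * B4 - B3 * A4) * (A1 * B1 - A2 * B2)) -
    1 / 3 * A1 * A2 * A3 * A4 * (B1 - B2) * (B3 - B4) +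
    1 / 6 * (A1 - A2) * (A3 - A4) * (B1 * B2 * A3 * A4 + B3 * B4 * A1 * A2)

/-- `δQ_s / w³` -/
def dq (A1 A2 A3 A4 B1 B2 B3 B4 As Bs L1 L2 L3 L4 M1 M2 M3 M4 : F) : F :=
  -(1 / 3) * ((A1 * B2 - B1 * A2) * (A3 * B4 - B3 * A4) * (As * Bs) *
    ((A1 * L1 + B1 * M1) + (A2 * L2 + B2 * M2) + (A3 * L3 + B3 * M3) + (A4 * L4 + B4 * M4) +
      (As * (L1 + L2) + Bs * (M1 + M2))))

/-- `T_s / w³` -/
def tt (A1 A2 A3 A4 B1 B2 B3 B4 As Bs : F) : F :=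
  1 / 2 * ((A1 * B2 - B1 * A2) * (As * Bs) * ((A3 ^ 2 - B3 ^ 2) - (A4 ^ 2 - B4 ^ 2))) +
    1 / 2 * ((A3 * B4 - B3 * A4) * (As * Bs) * ((A1 ^ 2 - B1 ^ 2) - (A2 ^ 2 - B2 ^ 2))) +
    1 / 6 * (ff A1 A2 B1 B2 As Bs * (A3 * B3 - A4 * B4) +
      ff A3 A4 B3 B4 As Bs * (A1 * B1 - A2 * B2))

/-- STEP 1 -/
lemma half [CharZero F] {A1 A2 A3 A4 B1 B2 B3 B4 As Bs L1 L2 L3 L4 M1 M2 M3 M4 : F}
    (rA : As * (A1 + A2) = A1 * A2) (rA' : As * (A3 + A4) = -(A3 * A4))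
    (rB : Bs * (B1 + B2) = B1 * B2) (rB' : Bs * (B3 + B4) = -(B3 * B4))
    (hA1 : M1 * A1 = 1) (hA2 : M2 * A2 = 1) (hA3 : M3 * A3 = 1) (hA4 : M4 * A4 = 1)
    (hB1 : L1 * B1 = 1) (hB2 : L2 * B2 = 1) (hB3 : L3 * B3 = 1) (hB4 : L4 * B4 = 1)
    (hAs : (M1 + M2) * As = 1) (hBs : (L1 + L2) * Bs = 1)
    (hM : M3 + M4 = -(M1 + M2)) (hL : L3 + L4 = -(L1 + L2)) :
    dq A1 A2 A3 A4 B1 B2 B3 B4 As Bs L1 L2 L3 L4 M1 M2 M3 M4 -
      tt A1 A2 A3 A4 B1 B2 B3 B4 As Bs =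
      ZZ A1 A2 A3 A4 B1 B2 B3 B4 + ZZ B1 B2 B3 B4 A1 A2 A3 A4 := by
  have s12 := star rA rB hB1 hB2 hBs
  have m12 := star rB rA hA1 hA2 hAs
  have s34 := star (A1 := A3) (A2 := A4) (B1 := B3) (B2 := B4) (As := -As) (Bs := -Bs)
    (L1 := L3) (L2 := L4) (by linear_combination -rA') (by linear_combination -rB') hB3 hB4
    (by rw [hL]; linear_combination hBs)
  have m34 := star (A1 := B3) (A2 := B4) (B1 := A3) (B2 := A4) (As := -Bs) (Bs := -As)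
    (L1 := M3) (L2 := M4) (by linear_combination -rB') (by linear_combination -rA') hA3 hA4
    (by rw [hM]; linear_combination hAs)
  rw [hL] at s34
  rw [hM] at m34
  unfold dq tt ff ZZ
  linear_combination (-(1 / 3) * (A3 * B4 - B3 * A4)) * s12 +
    (-(1 / 3) * (A1 * B2 - B1 * A2)) * s34 +
    (1 / 3 * (A1 * B2 - B1 * A2) * (A3 * B4 - B3 * A4) * As ^ 2) * hBs +
    (1 / 3 * (A3 * B4 - B3 * A4)) * m12 + (1 / 3 * (A1 * B2 - B1 * A2)) * m34 +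
    (1 / 3 * (A1 * B2 - B1 * A2) * (A3 * B4 - B3 * A4) * Bs ^ 2) * hAs +
    (1 / 3 * (B2 - B1) * (B4 - B3) * As * (A3 + A4)
      - 1 / 6 * (A1 - A2) * (A3 - A4) * Bs * (B3 + B4)) * rA +
    (1 / 3 * (B2 - B1) * (B4 - B3) * A1 * A2
      - 1 / 6 * (A1 - A2) * (A3 - A4) * B1 * B2) * rA' +
    (- 1 / 6 * (A1 - A2) * (A3 - A4) * As * (A3 + A4)) * rB +
    (- 1 / 6 * (A1 - A2) * (A3 - A4) * A1 * A2) * rB' +
    (1 / 3 * (A2 - A1) * (A4 - A3) * Bs * (B3 + B4)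
      - 1 / 6 * (B1 - B2) * (B3 - B4) * As * (A3 + A4)) * rB +
    (1 / 3 * (A2 - A1) * (A4 - A3) * B1 * B2
      - 1 / 6 * (B1 - B2) * (B3 - B4) * A1 * A2) * rB' +
    (- 1 / 6 * (B1 - B2) * (B3 - B4) * Bs * (B3 + B4)) * rA +
    (- 1 / 6 * (B1 - B2) * (B3 - B4) * B1 * B2) * rA'

/-- STEP 3 -/
lemma Zsum [CharZero F] {A1 A2 A3 A4 B1 B2 B3 B4 : F}
    (e3 : A1 * A2 * (A3 + A4) + A3 * A4 * (A1 + A2) = 0) :
    ZZ A1 A2 A3 A4 B1 B2 B3 B4 + ZZ A2 A3 A4 A1 B2 B3 B4 B1 = 0 := by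
  unfold ZZ
  linear_combination ((1/6)*A1*B2*B3 + (-1/3)*A1*B2*B4 + (1/6)*A1*B3*B4 + (-1/3)*A2*B1*B3 +
    (1/6)*A2*B1*B4 + (1/6)*A2*B3*B4 + (1/6)*A3*B1*B2 + (1/6)*A3*B1*B4 + (-1/3)*A3*B2*B4 +
    (1/6)*A4*B1*B2 + (-1/3)*A4*B1*B3 + (1/6)*A4*B2*B3) * e3

lemma e3_of {A1 A2 A3 A4 As : F} (rA : As * (A1 + A2) = A1 * A2)
    (rA' : As * (A3 + A4) = -(A3 * A4)) : A1 * A2 * (A3 + A4) + A3 * A4 * (A1 + A2) = 0 := by
  linear_combination -(A3 + A4) * rA + (-(A1 + A2)) * (-rA')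

lemma rel {A1 A2 As M1 M2 : F} (h1 : M1 * A1 = 1) (h2 : M2 * A2 = 1) (hs : (M1 + M2) * As = 1) :
    As * (A1 + A2) = A1 * A2 := by
  linear_combination (-(As * A2)) * h1 + (-(As * A1)) * h2 + A1 * A2 * hs

/-- The identity in a field. -/
lemma core [CharZero F] {A1 A2 A3 A4 B1 B2 B3 B4 As Bs At Bt L1 L2 L3 L4 M1 M2 M3 M4 : F}
    (hA1 : M1 * A1 = 1) (hA2 : M2 * A2 = 1) (hA3 : M3 * A3 = 1) (hA4 : M4 * A4 = 1)
    (hB1 : L1 * B1 = 1) (hB2 : L2 * B2 = 1) (hB3 : L3 * B3 = 1) (hB4 : L4 * B4 = 1)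
    (hAs : (M1 + M2) * As = 1) (hBs : (L1 + L2) * Bs = 1)
    (hAt : (M2 + M3) * At = 1) (hBt : (L2 + L3) * Bt = 1)
    (hM : M1 + M2 + M3 + M4 = 0) (hL : L1 + L2 + L3 + L4 = 0) :
    dq A1 A2 A3 A4 B1 B2 B3 B4 As Bs L1 L2 L3 L4 M1 M2 M3 M4 +
      dq A2 A3 A4 A1 B2 B3 B4 B1 At Bt L2 L3 L4 L1 M2 M3 M4 M1 =
      tt A1 A2 A3 A4 B1 B2 B3 B4 As Bs + tt A2 A3 A4 A1 B2 B3 B4 B1 At Bt := by
  have rA := rel hA1 hA2 hAs
  have rB := rel hB1 hB2 hBs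
  have rAt := rel hA2 hA3 hAt
  have rBt := rel hB2 hB3 hBt
  have hM' : M3 + M4 = -(M1 + M2) := by linear_combination hM
  have hL' : L3 + L4 = -(L1 + L2) := by linear_combination hL
  have hM'' : M4 + M1 = -(M2 + M3) := by linear_combination hM
  have hL'' : L4 + L1 = -(L2 + L3) := by linear_combination hL
  have rA' : As * (A3 + A4) = -(A3 * A4) := by
    have := rel (As := -As) hA3 hA4 (by rw [hM']; linear_combination hAs)
    linear_combination -this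
  have rB' : Bs * (B3 + B4) = -(B3 * B4) := by
    have := rel (As := -Bs) hB3 hB4 (by rw [hL']; linear_combination hBs)
    linear_combination -this
  have rAt' : At * (A4 + A1) = -(A4 * A1) := by
    have := rel (As := -At) hA4 hA1 (by rw [hM'']; linear_combination hAt)
    linear_combination -this
  have rBt' : Bt * (B4 + B1) = -(B4 * B1) := by
    have := rel (As := -Bt) hB4 hB1 (by rw [hL'']; linear_combination hBt)
    linear_combination -this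
  have h1 := half rA rA' rB rB' hA1 hA2 hA3 hA4 hB1 hB2 hB3 hB4 hAs hBs hM' hL'
  have h2 := half rAt rAt' rBt rBt' hA2 hA3 hA4 hA1 hB2 hB3 hB4 hB1 hAt hBt hM'' hL''
  have z1 := Zsum (B1 := B1) (B2 := B2) (B3 := B3) (B4 := B4) (e3_of rA rA')
  have z2 := Zsum (B1 := A1) (B2 := A2) (B3 := A3) (B4 := A4) (e3_of rB rB')
  linear_combination h1 + h2 + z1 + z2

/-! ### transfer -/

abbrev R := PowerSeries ℂ
abbrev K := FractionRing (PowerSeries ℂ)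

noncomputable def φ : R →+* K := algebraMap R K

noncomputable def ψ : ℂ →+* K := φ.comp (PowerSeries.C (R := ℂ))

lemma φ_inj : Function.Injective φ := IsFractionRing.injective R K

instance : CharZero K := by
  refine charZero_of_injective_ringHom (f := ψ) ?_
  exact ψ.injective

lemma φ_smul (c : ℂ) (f : R) : φ (c • f) = ψ c * φ f := by
  rw [PowerSeries.smul_eq_C_mul, map_mul]
  rfl

lemma KAs_add (w : ℂ) (v v' : SV) : KAs w (v + v') = KAs w v + KAs w v' := by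
  unfold KAs KA
  simp only [Prod.fst_add, Prod.snd_add, Int.cast_add, map_add, map_mul]
  ring

lemma KBs_add (w : ℂ) (v v' : SV) : KBs w (v + v') = KBs w v + KBs w v' := by
  unfold KBs KB
  simp only [Prod.fst_add, Prod.snd_add, Int.cast_add, map_add, map_sub, map_mul]
  ring

lemma KAs_zero (w : ℂ) : KAs w 0 = 0 := by
  unfold KAs KA
  simp

lemma KBs_zero (w : ℂ) : KBs w 0 = 0 := by
  unfold KBs KB
  simp

lemma map_dQs (w : ℂ) (v1 v2 v3 v4 : SV) :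
    φ (dQs w v1 v2 v3 v4) = ψ w ^ 3 *
      dq (φ (As w v1)) (φ (As w v2)) (φ (As w v3)) (φ (As w v4))
        (φ (Bs w v1)) (φ (Bs w v2)) (φ (Bs w v3)) (φ (Bs w v4))
        (φ (As w (v1 + v2))) (φ (Bs w (v1 + v2)))
        (φ (KBs w v1)) (φ (KBs w v2)) (φ (KBs w v3)) (φ (KBs w v4))
        (φ (KAs w v1)) (φ (KAs w v2)) (φ (KAs w v3)) (φ (KAs w v4)) := by
  unfold dQs om XX dq
  rw [φ_smul]
  rw [KBs_add, KAs_add]
  simp only [map_mul, map_add, map_sub, map_neg, map_pow, map_div₀, map_one, map_ofNat]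
  ring

lemma map_Ts (w : ℂ) (v1 v2 v3 v4 : SV) (hA : As w (v3 + v4) = -As w (v1 + v2))
    (hB : Bs w (v3 + v4) = -Bs w (v1 + v2)) :
    φ (Ts w v1 v2 v3 v4) = ψ w ^ 3 *
      tt (φ (As w v1)) (φ (As w v2)) (φ (As w v3)) (φ (As w v4))
        (φ (Bs w v1)) (φ (Bs w v2)) (φ (Bs w v3)) (φ (Bs w v4))
        (φ (As w (v1 + v2))) (φ (Bs w (v1 + v2))) := by
  have hI : ψ Complex.I ^ 2 = -1 := by
    rw [← map_pow, Complex.I_sq, map_neg, map_one]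
  have hI0 : ψ Complex.I ≠ 0 := by
    intro h
    rw [h] at hI
    norm_num at hI
  have hd : ψ w / (2 * ψ Complex.I) = -(ψ Complex.I * ψ w) / 2 := by
    field_simp
    linear_combination (ψ w) * hI
  unfold Ts Pp Ff br hh dd xx XX tt ff
  rw [hA, hB]
  simp only [map_mul, map_add, map_sub, map_neg, map_pow, map_div₀, map_one, map_ofNat, φ_smul]
  rw [hd]
  generalize φ (As w v1) = A1
  generalize φ (As w v2) = A2
  generalize φ (As w v3) = A3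
  generalize φ (As w v4) = A4
  generalize φ (As w (v1 + v2)) = A0
  generalize φ (Bs w v1) = B1
  generalize φ (Bs w v2) = B2
  generalize φ (Bs w v3) = B3
  generalize φ (Bs w v4) = B4
  generalize φ (Bs w (v1 + v2)) = B0
  generalize ψ w = W
  generalize ψ Complex.I = i at *
  linear_combination (-(1 / 2) * W ^ 3 * ((A1 * B2 - B1 * A2) * (A0 * B0) *
    ((A3 ^ 2 - B3 ^ 2) - (A4 ^ 2 - B4 ^ 2))) - (1 / 2) * W ^ 3 *
      ((A3 * B4 - B3 * A4) * (A0 * B0) * ((A1 ^ 2 - B1 ^ 2) - (A2 ^ 2 - B2 ^ 2)))) * hI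

/-- Packet A4. -/
theorem thm (hA1 : EC237.A1) : EC237.A4 := by
  intro w hw v1 v2 v3 v4 hsum n1 n2 n3 n4 n12 n23
  obtain ⟨-, hinv, hneg, -, -⟩ := hA1 w hw
  have hinv' : ∀ v : SV, v.1 ≠ 0 → φ (KAs w v) * φ (As w v) = 1 ∧
      φ (KBs w v) * φ (Bs w v) = 1 := by
    intro v hv
    obtain ⟨a, b⟩ := hinv v hv
    rw [← map_mul, ← map_mul, a, b, map_one]
    exact ⟨rfl, rfl⟩
  have e34 : v3 + v4 = -(v1 + v2) := by
    rw [eq_neg_iff_add_eq_zero, ← hsum]; abel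
  have e41 : v4 + v1 = -(v2 + v3) := by
    rw [eq_neg_iff_add_eq_zero, ← hsum]; abel
  have hA34 : As w (v3 + v4) = -As w (v1 + v2) := by rw [e34]; exact (hneg _).1
  have hB34 : Bs w (v3 + v4) = -Bs w (v1 + v2) := by rw [e34]; exact (hneg _).2
  have hA41 : As w (v4 + v1) = -As w (v2 + v3) := by rw [e41]; exact (hneg _).1
  have hB41 : Bs w (v4 + v1) = -Bs w (v2 + v3) := by rw [e41]; exact (hneg _).2
  apply φ_inj
  unfold Tt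
  rw [map_add, map_add, map_dQs, map_dQs, map_Ts w v1 v2 v3 v4 hA34 hB34,
    map_Ts w v2 v3 v4 v1 hA41 hB41]
  have hs := hinv' (v1 + v2) n12
  have ht := hinv' (v2 + v3) n23
  rw [KAs_add, KBs_add, map_add, map_add] at hs ht
  have hM : φ (KAs w v1) + φ (KAs w v2) + φ (KAs w v3) + φ (KAs w v4) = 0 := by
    rw [← map_add, ← map_add, ← map_add, ← KAs_add, ← KAs_add, ← KAs_add, hsum, KAs_zero, map_zero]
  have hL : φ (KBs w v1) + φ (KBs w v2) + φ (KBs w v3) + φ (KBs w v4) = 0 := by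
    rw [← map_add, ← map_add, ← map_add, ← KBs_add, ← KBs_add, ← KBs_add, hsum, KBs_zero, map_zero]
  have key := core (hinv' v1 n1).1 (hinv' v2 n2).1 (hinv' v3 n3).1 (hinv' v4 n4).1
    (hinv' v1 n1).2 (hinv' v2 n2).2 (hinv' v3 n3).2 (hinv' v4 n4).2 hs.1 hs.2 ht.1 ht.2 hM hL
  rw [← mul_add, ← mul_add, key]

end Pool.Agent.Helper18.EC.D_A4
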