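import Pool.Agent.Helper23.EC.DGoalsM

/-!
# Packet MPA of MP_ecc237_nt, Part D: the `P`-part of family A.
-/

set_option autoImplicit false

open EC237

namespace Pool.Agent.Helper18.EC.D_MPA

lemma prod_sum {f : ℤ × ℤ → ℂ} {g : ℤ → ℂ} {A B : ℂ} (hf : HasSum f A) (hg : HasSum g B)
    (e : ℤ × ℤ × ℤ ≃ (ℤ × ℤ) × ℤ) :
    HasSum (fun m => f (e m).1 * g (e m).2) (A * B) := by
  have h1 : Summable (fun x : (ℤ × ℤ) × ℤ => f x.1 * g x.2) :=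
    summable_mul_of_summable_norm hf.summable.norm hg.summable.norm
  have h2 := hf.mul hg h1
  exact (e.hasSum_iff (f := fun x : (ℤ × ℤ) × ℤ => f x.1 * g x.2)).mpr h2

lemma hs_congr {ι : Type*} {f g : ι → ℂ} {A : ℂ} (h : ∀ m, f m = g m) (hg : HasSum g A) :
    HasSum f A := by
  rw [funext h]; exact hg

def e1 : ℤ × ℤ × ℤ ≃ (ℤ × ℤ) × ℤ where
  toFun m := ((m.1, m.2.1), m.2.2)
  invFun q := (q.1.1, q.1.2, q.2)
  left_inv := by rintro ⟨a, b, c⟩; rfl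
  right_inv := by rintro ⟨⟨a, b⟩, c⟩; rfl

def e2 : ℤ × ℤ × ℤ ≃ (ℤ × ℤ) × ℤ where
  toFun m := ((m.1, m.2.1), -(m.1 + m.2.1 + m.2.2))
  invFun q := (q.1.1, q.1.2, -(q.1.1 + q.1.2 + q.2))
  left_inv := by rintro ⟨a, b, c⟩; ext <;> dsimp only <;> ring
  right_inv := by rintro ⟨⟨a, b⟩, c⟩; ext <;> dsimp only <;> ring

def e3 : ℤ × ℤ × ℤ ≃ (ℤ × ℤ) × ℤ where
  toFun m := ((m.2.2, -(m.1 + m.2.1 + m.2.2)), m.1)
  invFun q := (q.2, -(q.2 + q.1.1 + q.1.2), q.1.1)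
  left_inv := by rintro ⟨a, b, c⟩; ext <;> dsimp only <;> ring
  right_inv := by rintro ⟨⟨a, b⟩, c⟩; ext <;> dsimp only <;> ring

def e4 : ℤ × ℤ × ℤ ≃ (ℤ × ℤ) × ℤ where
  toFun m := ((m.2.2, -(m.1 + m.2.1 + m.2.2)), m.2.1)
  invFun q := (-(q.2 + q.1.1 + q.1.2), q.2, q.1.1)
  left_inv := by rintro ⟨a, b, c⟩; ext <;> dsimp only <;> ring
  right_inv := by rintro ⟨⟨a, b⟩, c⟩; ext <;> dsimp only <;> ring

def e5 : ℤ × ℤ × ℤ ≃ (ℤ × ℤ) × ℤ where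
  toFun m := ((m.2.1, m.2.2), -(m.1 + m.2.1 + m.2.2))
  invFun q := (-(q.1.1 + q.1.2 + q.2), q.1.1, q.1.2)
  left_inv := by rintro ⟨a, b, c⟩; ext <;> dsimp only <;> ring
  right_inv := by rintro ⟨⟨a, b⟩, c⟩; ext <;> dsimp only <;> ring

def e6 : ℤ × ℤ × ℤ ≃ (ℤ × ℤ) × ℤ where
  toFun m := ((m.2.1, m.2.2), m.1)
  invFun q := (q.2, q.1.1, q.1.2)
  left_inv := by rintro ⟨a, b, c⟩; rfl
  right_inv := by rintro ⟨⟨a, b⟩, c⟩; rfl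

def e7 : ℤ × ℤ × ℤ ≃ (ℤ × ℤ) × ℤ where
  toFun m := ((-(m.1 + m.2.1 + m.2.2), m.1), m.2.1)
  invFun q := (q.1.2, q.2, -(q.1.1 + q.1.2 + q.2))
  left_inv := by rintro ⟨a, b, c⟩; ext <;> dsimp only <;> ring
  right_inv := by rintro ⟨⟨a, b⟩, c⟩; ext <;> dsimp only <;> ring

def e8 : ℤ × ℤ × ℤ ≃ (ℤ × ℤ) × ℤ where
  toFun m := ((-(m.1 + m.2.1 + m.2.2), m.1), m.2.2)
  invFun q := (q.1.2, -(q.1.1 + q.1.2 + q.2), q.2)
  left_inv := by rintro ⟨a, b, c⟩; ext <;> dsimp only <;> ring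
  right_inv := by rintro ⟨⟨a, b⟩, c⟩; ext <;> dsimp only <;> ring

/-- Packet MPA. -/
theorem thm (_hN4 : EC237.N4) (_hN5 : EC237.N5) (hN12 : EC237.N12) (hN13 : EC237.N13) :
    EC237.MPA := by
  intro y hy
  obtain ⟨hs, x1, -, x1', x3⟩ := hN12 y hy
  obtain ⟨p1, p3, q1, q3, -, -⟩ := hN13 y hy
  set S : ℂ := ((y * D1 y : ℝ) : ℂ) with hS
  have hx1 : HasSum (fun m : ℤ => xS y 1 m 1 1) S := by
    have := (hs 1 1 (by norm_num)).hasSum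
    rwa [x1] at this
  have hx1' : HasSum (fun m : ℤ => xS y 1 m (-1) 1) (-S) := by
    have := (hs 1 (-1) (by norm_num)).hasSum
    rwa [x1'] at this
  have hx3 : HasSum (fun m : ℤ => xS y 3 m (-1) 1) 0 := by
    have := (hs 3 (-1) (by norm_num)).hasSum
    rwa [x3] at this
  constructor
  · have a1 := prod_sum p1 hx1 e1
    have a2 := prod_sum p1 hx3 e2
    have a3 := prod_sum p3 hx1 e3
    have a4 := prod_sum p3 hx1' e4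
    have h := ((a2.sub a1).add (a4.sub a3))
    have ev : -(S * (PiS (y:ℂ) 1 + 2 * PiS (y:ℂ) 3)) =
        PiS (y:ℂ) 1 * 0 - PiS (y:ℂ) 1 * S + (PiS (y:ℂ) 3 * -S - PiS (y:ℂ) 3 * S) := by ring
    rw [ev]
    refine hs_congr (fun m => ?_) h
    simp only [PM, pL, xL, lA1, lA2, lA3, lA4, e1, e2, e3, e4, Equiv.coe_fn_mk]
    ring
  · have a1 := prod_sum q1 hx1 e6
    have a2 := prod_sum q1 hx3 e5
    have a3 := prod_sum q3 hx1' e7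
    have a4 := prod_sum q3 hx1 e8
    have h := ((a1.sub a2).add (a4.sub a3))
    have ev : -(S * (PiS (y:ℂ) 1 + 2 * PiS (y:ℂ) 3)) =
        -PiS (y:ℂ) 1 * S - -PiS (y:ℂ) 1 * 0 + (-PiS (y:ℂ) 3 * S - -PiS (y:ℂ) 3 * -S) := by ring
    rw [ev]
    refine hs_congr (fun m => ?_) h
    simp only [PM, pL, xL, lA1, lA2, lA3, lA4, e5, e6, e7, e8, Equiv.coe_fn_mk]
    ring

end Pool.Agent.Helper18.EC.D_MPA
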