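import Pool.Agent.Helper23.EC.EGoals

/-!
# MP_ecc237_nt, PART E, packet ED4: errors for `Y`, `W`
-/

set_option autoImplicit false

open MeasureTheory Filter Topology Set

namespace Pool.Agent.Helper18.EC.E_ED4

open EC237

theorem sU_cls (n : ℤ) : sU (1 - 3 * n) n = sU 1 n := by
  unfold sU
  by_cases h : n = 0
  · subst h; simp
  · simp [h]

theorem cot_per (c c0 : ℤ) (h : (c - c0) % 6 = 0) :
    Real.cos (Real.pi * c / 6) / Real.sin (Real.pi * c / 6) =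
    Real.cos (Real.pi * c0 / 6) / Real.sin (Real.pi * c0 / 6) := by
  obtain ⟨j, hj⟩ := Int.dvd_of_emod_eq_zero h
  have e : Real.pi * (c:ℝ) / 6 = Real.pi * (c0:ℝ) / 6 + (j:ℝ) * Real.pi := by
    have : (c:ℝ) = c0 + 6 * j := by
      have : c = c0 + 6 * j := by omega
      exact_mod_cast this
    rw [this]; ring
  rw [e, Real.cos_add_int_mul_pi, Real.sin_add_int_mul_pi]
  rcases Int.even_or_odd j with hj' | hj'
  · rw [hj'.neg_one_zpow]; simp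
  · rw [hj'.neg_one_zpow]; simp

theorem sV_cls (c c0 n : ℤ) (h : n = 0 → (c - c0) % 6 = 0) : sV c n = sV c0 n := by
  unfold sV
  by_cases h' : n = 0
  · subst h'
    have := h rfl
    simp only [ne_eq, not_true_eq_false, if_false]
    rw [cot_per c c0 this]
  · simp [h']

theorem eW_cls (z : ℝ) (c c0 n : ℤ) (j : ℕ) (h : (c - c0) % 6 = 0) : eW z c n j = eW z c0 n j := by
  unfold eW
  congr 1
  funext m
  have : ((m - c) % 6 = 0) ↔ ((m - c0) % 6 = 0) := by omega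
  simp only [this]

theorem MM_re (z : ℝ) (k m n : ℤ) : (MM z k m n).re = m := by
  unfold MM
  simp

theorem MM_norm (z : ℝ) (k m n : ℤ) : |(m:ℝ)| ≤ ‖MM z k m n‖ := by
  rw [← MM_re z k m n]
  exact Complex.abs_re_le_norm _

theorem ewt_nonneg (z : ℝ) (n : ℤ) : 0 ≤ ewt z n := by
  unfold ewt
  split
  · exact le_refl _
  · exact (Real.exp_pos _).le

theorem FX_diff (z : ℝ) (hz : 1 ≤ z) (a' : ℂ) (ha' : ‖a'‖ ≤ 1) (M S S' U U' V V' u3 u3' v3 v3' : ℂ)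
    (m : ℝ) (hm : 1 ≤ m) (hM : m ≤ ‖M‖) :
    ‖FX z 1 a' 1 M S U u3 V v3 - FX z 1 a' 1 M S' U' u3' V' v3'‖ ≤
      z ^ 3 / m * (‖U - U'‖ + ‖V - V'‖ + 2 * ‖S - S'‖) := by
  have hz0 : 0 ≤ z := by linarith
  have hm0 : 0 < m := by linarith
  have hM0 : 0 < ‖M‖ := lt_of_lt_of_le hm0 hM
  have e : FX z 1 a' 1 M S U u3 V v3 - FX z 1 a' 1 M S' U' u3' V' v3' =
      (z:ℂ) ^ 3 * (-(Complex.I * ((U - U') / M + (S - S') / M ^ 2))
      + Complex.I * a' * ((V - V') / M + (S - S') / M ^ 2)) := by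
    unfold FX
    simp only [one_ne_zero, if_false, if_true]
    ring
  rw [e, norm_mul, norm_pow]
  have hzn : ‖(z:ℂ)‖ = z := by simp [abs_of_nonneg hz0]
  rw [hzn]
  have h1 : ∀ x : ℂ, ‖x / M‖ ≤ ‖x‖ / m := by
    intro x
    rw [norm_div]
    exact div_le_div_of_nonneg_left (norm_nonneg _) hm0 hM
  have h2 : ∀ x : ℂ, ‖x / M ^ 2‖ ≤ ‖x‖ / m := by
    intro x
    rw [norm_div, norm_pow]
    apply div_le_div_of_nonneg_left (norm_nonneg _) hm0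
    nlinarith
  have h3 : ‖-(Complex.I * ((U - U') / M + (S - S') / M ^ 2))
      + Complex.I * a' * ((V - V') / M + (S - S') / M ^ 2)‖ ≤
      (‖U - U'‖ / m + ‖S - S'‖ / m) + (‖V - V'‖ / m + ‖S - S'‖ / m) := by
    refine (norm_add_le _ _).trans (add_le_add ?_ ?_)
    · rw [norm_neg, norm_mul, Complex.norm_I, one_mul]
      exact (norm_add_le _ _).trans (add_le_add (h1 _) (h2 _))
    · rw [norm_mul, norm_mul, Complex.norm_I, one_mul]
      have h4 : ‖(V - V') / M + (S - S') / M ^ 2‖ ≤ ‖V - V'‖ / m + ‖S - S'‖ / m :=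
        (norm_add_le _ _).trans (add_le_add (h1 _) (h2 _))
      calc ‖a'‖ * ‖(V - V') / M + (S - S') / M ^ 2‖ ≤ 1 * ‖(V - V') / M + (S - S') / M ^ 2‖ :=
            mul_le_mul_of_nonneg_right ha' (norm_nonneg _)
        _ = _ := one_mul _
        _ ≤ _ := h4
  calc z ^ 3 * _ ≤ z ^ 3 * ((‖U - U'‖ / m + ‖S - S'‖ / m) + (‖V - V'‖ / m + ‖S - S'‖ / m)) :=
        mul_le_mul_of_nonneg_left h3 (by positivity)
    _ = z ^ 3 / m * (‖U - U'‖ + ‖V - V'‖ + 2 * ‖S - S'‖) := by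
        field_simp
        ring

theorem im_diff (x y : ℂ) : ‖(((2 * x.im : ℝ) : ℂ) * Complex.I) -
    (((2 * y.im : ℝ) : ℂ) * Complex.I)‖ ≤ 2 * ‖x - y‖ := by
  rw [← sub_mul, norm_mul, Complex.norm_I, mul_one, ← Complex.ofReal_sub, ← mul_sub,
    ← Complex.sub_im, Complex.norm_real, Real.norm_eq_abs, abs_mul, abs_two]
  exact mul_le_mul_of_nonneg_left (Complex.abs_im_le_norm _) (by norm_num)

/-- pointwise comparison. -/
theorem ptw (hEB2 : EB2) (hEB3 : EB3) (hEB4 : EB4) (hEC1 : EC1) : ∃ C : ℝ, 0 < C ∧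
    ∀ z : ℝ, 1 ≤ z → ∀ (k m n1 a' c0 : ℤ) (v : ℝ), |a'| ≤ 1 → m ≠ 0 →
    (m - 1 + 3 * k - c0) % 6 = 0 → c0 % 6 ≠ 0 → eW z c0 0 2 = (v:ℂ) →
    ‖gX z 1 1 a' 1 k m n1 - ((2 * (FX z 1 (a':ℂ) 1 (MM z k m n1) (sU 1 n1 + sV c0 (k - n1))
      (if n1 = 0 then ((Real.pi ^ 2 / 9 : ℝ) : ℂ) else 0) 0
      (if k - n1 = 0 then ((v:ℝ):ℂ) else 0) 0).im : ℝ) : ℂ) * Complex.I‖ ≤
      C * (z ^ 3 / |(m:ℝ)|) * (ewt z n1 + ewt z (k - n1)) := by
  obtain ⟨C2, hC2, h2⟩ := hEB2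
  obtain ⟨C3, hC3, h3⟩ := hEB3
  refine ⟨2 * (C2 + 2 * C3), by positivity, ?_⟩
  intro z hz k m n1 a' c0 v ha' hm hcl hc0 hv
  have hz0 : 0 < z := by linarith
  have hm1 : (1:ℝ) ≤ |(m:ℝ)| := by
    have : (1:ℤ) ≤ |m| := Int.one_le_abs hm
    have h' : ((1:ℤ):ℝ) ≤ ((|m| : ℤ) : ℝ) := by exact_mod_cast this
    simpa using h'
  have hMn := MM_norm z k m n1
  have hM0 : MM z k m n1 ≠ 0 := by
    intro h
    rw [h, norm_zero] at hMn
    linarith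
  obtain ⟨-, hX⟩ := hEC1 z hz0 1 1 a' 1 k m n1 (by norm_num)
  have hX' := hX hM0 (Or.inr (by norm_num)) (by
    by_cases h : k - n1 = 0
    · right; omega
    · exact Or.inl h)
  rw [hX']
  refine (im_diff _ _).trans ?_
  have ha'' : ‖((a':ℤ):ℂ)‖ ≤ 1 := by
    rw [Complex.norm_intCast]
    exact_mod_cast ha'
  have hF := FX_diff z hz (a':ℂ) ha'' (MM z k m n1) (eSg z (1 - 3 * n1) n1 (k - n1) m)
    (sU 1 n1 + sV c0 (k - n1)) (eU z (1 - 3 * n1) n1 2)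
    (if n1 = 0 then ((Real.pi ^ 2 / 9 : ℝ) : ℂ) else 0) (eW z (m - 1 + 3 * n1) (k - n1) 2)
    (if k - n1 = 0 then ((v:ℝ):ℂ) else 0) (eU z (1 - 3 * n1) n1 3) 0
    (eW z (m - 1 + 3 * n1) (k - n1) 3) 0 |(m:ℝ)| hm1 hMn
  have hU : ‖eU z (1 - 3 * n1) n1 2 - (if n1 = 0 then ((Real.pi ^ 2 / 9 : ℝ) : ℂ) else 0)‖ ≤
      C2 * ewt z n1 := by
    by_cases h : n1 = 0
    · subst h
      have : (1 - 3 * 0 : ℤ) = 1 := by norm_num
      rw [this, (hEB4 z).1, if_pos rfl, sub_self, norm_zero]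
      exact mul_nonneg hC2.le (ewt_nonneg _ _)
    · rw [if_neg h, sub_zero]
      exact (h2 z hz _ n1 h 2 (le_refl _) (by norm_num)).1
  have hV : ‖eW z (m - 1 + 3 * n1) (k - n1) 2 - (if k - n1 = 0 then ((v:ℝ):ℂ) else 0)‖ ≤
      C2 * ewt z (k - n1) := by
    by_cases h : k - n1 = 0
    · have hk : n1 = k := by omega
      rw [if_pos h, h, eW_cls z _ c0 0 2 (by subst hk; exact hcl), hv, sub_self, norm_zero]
      exact mul_nonneg hC2.le (ewt_nonneg _ _)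
    · rw [if_neg h, sub_zero]
      exact (h2 z hz _ (k - n1) h 2 (le_refl _) (by norm_num)).2
  have hS : ‖eSg z (1 - 3 * n1) n1 (k - n1) m - (sU 1 n1 + sV c0 (k - n1))‖ ≤
      C3 * (ewt z n1 + ewt z (k - n1)) := by
    have := h3 z hz (1 - 3 * n1) n1 (k - n1) m (by
      by_cases h : n1 = 0
      · right; omega
      · exact Or.inl h) (by
      by_cases h : k - n1 = 0
      · right; omega
      · exact Or.inl h)
    rw [sU_cls, sV_cls (m - (1 - 3 * n1)) c0 (k - n1) (by intro h; omega)] at this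
    exact this
  have hz3 : 0 ≤ z ^ 3 / |(m:ℝ)| := by positivity
  have hew1 := ewt_nonneg z n1
  have hew2 := ewt_nonneg z (k - n1)
  have hF2 := hF.trans (mul_le_mul_of_nonneg_left (add_le_add (add_le_add hU hV)
    (mul_le_mul_of_nonneg_left hS (by norm_num : (0:ℝ) ≤ 2))) hz3)
  have e1 : ((1:ℤ):ℂ) = 1 := by norm_num
  rw [e1]
  calc 2 * _ ≤ 2 * (z ^ 3 / |(m:ℝ)| * (C2 * ewt z n1 + C2 * ewt z (k - n1) +
        2 * (C3 * (ewt z n1 + ewt z (k - n1))))) :=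
        mul_le_mul_of_nonneg_left hF2 (by norm_num)
    _ = _ := by ring

theorem sum_exp : Summable (fun n : ℤ => Real.exp (-|(n:ℝ)|)) := by
  have h : Summable (fun n : ℕ => Real.exp (-(n:ℝ))) := Real.summable_exp_neg_nat
  apply Summable.of_nat_of_neg
  · refine h.congr ?_
    intro n
    simp
  · refine h.congr ?_
    intro n
    simp

theorem ewt_le (z : ℝ) (hz : 1 ≤ z) (n : ℤ) :
    ewt z n ≤ Real.exp (-(Real.pi / 3 * z)) * (Real.exp 1 * Real.exp (-|(n:ℝ)|)) := by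
  unfold ewt
  by_cases h : n = 0
  · rw [if_pos h]; positivity
  · rw [if_neg h, ← Real.exp_add, ← Real.exp_add]
    apply Real.exp_le_exp.2
    have h1 : (1:ℝ) ≤ |(n:ℝ)| := by
      have : (1:ℤ) ≤ |n| := Int.one_le_abs h
      have h' : ((1:ℤ):ℝ) ≤ ((|n| : ℤ) : ℝ) := by exact_mod_cast this
      simpa using h'
    have hp : (1:ℝ) ≤ Real.pi / 3 := by
      have := Real.pi_gt_three
      linarith
    have h2 : 1 ≤ Real.pi / 3 * z := by nlinarith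
    have h3 : (|(n:ℝ)| - 1) * 1 ≤ (|(n:ℝ)| - 1) * (Real.pi / 3 * z) :=
      mul_le_mul_of_nonneg_left h2 (by linarith)
    nlinarith

theorem ewt_sum : ∃ K : ℝ, 0 < K ∧ ∀ z : ℝ, 1 ≤ z → ∀ k : ℤ,
    Summable (fun n : ℤ => ewt z n + ewt z (k - n)) ∧
    ∑' n : ℤ, (ewt z n + ewt z (k - n)) ≤ K * Real.exp (-(Real.pi / 3 * z)) := by
  have hs1 : Summable (fun n : ℤ => Real.exp 1 * Real.exp (-|(n:ℝ)|)) := sum_exp.mul_left _
  set K0 : ℝ := ∑' n : ℤ, Real.exp 1 * Real.exp (-|(n:ℝ)|) with hK0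
  have hK0n : 0 ≤ K0 := tsum_nonneg (fun n => by positivity)
  refine ⟨2 * K0 + 1, by linarith, ?_⟩
  intro z hz k
  have hs2 : Summable (fun n : ℤ => ewt z n) :=
    Summable.of_nonneg_of_le (fun n => ewt_nonneg z n) (fun n => ewt_le z hz n) (hs1.mul_left _)
  have hs3 : Summable (fun n : ℤ => ewt z (k - n)) := (Equiv.subLeft k).summable_iff.2 hs2
  have e3 : ∑' n : ℤ, ewt z (k - n) = ∑' n : ℤ, ewt z n := (Equiv.subLeft k).tsum_eq _
  have h1 : ∑' n : ℤ, ewt z n ≤ Real.exp (-(Real.pi / 3 * z)) * K0 := by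
    rw [hK0, ← tsum_mul_left]
    exact hs2.tsum_le_tsum (fun n => ewt_le z hz n) (hs1.mul_left _)
  refine ⟨hs2.add hs3, ?_⟩
  rw [hs2.tsum_add hs3, e3]
  have := Real.exp_pos (-(Real.pi / 3 * z))
  nlinarith

theorem thm (hEA1 : EC237.EA1) (hEB2 : EC237.EB2) (hEB3 : EC237.EB3) (hEB4 : EC237.EB4)
    (hEC1 : EC237.EC1) (hEC3 : EC237.EC3) (hED1 : EC237.ED1) (hED2 : EC237.ED2) :
    EC237.ED4 := by
  have _ := hEA1
  obtain ⟨C, hC, hpt⟩ := ptw hEB2 hEB3 hEB4 hEC1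
  obtain ⟨K, hK, hsum⟩ := ewt_sum
  refine ⟨2 * (C * K), by positivity, ?_⟩
  intro z hz s hs
  have hz0 : 0 < z := by linarith
  have hcl : (s.2 + 3 * s.1 - 2) % 6 = 0 := hs
  have hm : s.2 ≠ 0 := by
    intro h
    rw [h] at hcl
    omega
  have hs0 : s ≠ 0 := by
    intro h
    apply hm
    rw [h]
    rfl
  have hmabs : 0 < |(s.2:ℝ)| := abs_pos.2 (by exact_mod_cast hm)
  -- general comparison
  have gen : ∀ (k m : ℤ) (g g0 : ℤ → ℂ) (A B : ℂ), |(m:ℝ)| = |(s.2:ℝ)| → HasSum g A → HasSum g0 B →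
      (∀ n, ‖g n - g0 n‖ ≤ C * (z ^ 3 / |(m:ℝ)|) * (ewt z n + ewt z (k - n))) →
      ‖A - B‖ ≤ C * K * z ^ 4 * Real.exp (-(Real.pi / 3 * z)) / |(s.2:ℝ)| := by
    intro k m g g0 A B hmm hg hg0 hb
    have h1 := hg.sub hg0
    obtain ⟨hS, hle⟩ := hsum z hz k
    have h2 := (hS.hasSum).mul_left (C * (z ^ 3 / |(m:ℝ)|))
    have h3 : ‖A - B‖ ≤ C * (z ^ 3 / |(m:ℝ)|) * ∑' n : ℤ, (ewt z n + ewt z (k - n)) := by
      rw [← h1.tsum_eq]
      exact tsum_of_norm_bounded h2 hb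
    refine h3.trans ?_
    rw [hmm]
    have hz3 : 0 ≤ z ^ 3 / |(s.2:ℝ)| := by positivity
    have h34 : z ^ 3 ≤ z ^ 4 := by
      have : z ^ 3 * 1 ≤ z ^ 3 * z := mul_le_mul_of_nonneg_left hz (by positivity)
      nlinarith
    have hexp := Real.exp_pos (-(Real.pi / 3 * z))
    calc C * (z ^ 3 / |(s.2:ℝ)|) * ∑' n : ℤ, (ewt z n + ewt z (k - n))
        ≤ C * (z ^ 3 / |(s.2:ℝ)|) * (K * Real.exp (-(Real.pi / 3 * z))) :=
          mul_le_mul_of_nonneg_left hle (by positivity)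
      _ = (C * K * Real.exp (-(Real.pi / 3 * z)) / |(s.2:ℝ)|) * z ^ 3 := by ring
      _ ≤ (C * K * Real.exp (-(Real.pi / 3 * z)) / |(s.2:ℝ)|) * z ^ 4 :=
          mul_le_mul_of_nonneg_left h34 (by positivity)
      _ = _ := by ring
  -- Y
  have hY1 := hEC3 z hz0 1 1 1 0 1 s (by norm_num) (by norm_num) (by norm_num) hs0
    (by show (s.2 + 3 * s.1 - (1 + 1)) % 6 = 0; omega)
  have hY2 := hED1 z hz0 s.1 s.2 hm
  have hY := gen s.1 s.2 _ _ _ _ rfl hY1 hY2 (by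
    intro n
    have := hpt z hz s.1 s.2 n 0 1 (Real.pi ^ 2 / 9) (by norm_num) hm (by omega) (by norm_num)
      (hEB4 z).2.1
    unfold gY0
    simpa using this)
  -- W
  have hms : ((-s) : ℤ × ℤ) ≠ 0 := neg_ne_zero.2 hs0
  have hW1 := hEC3 z hz0 1 3 1 (-1) 1 (-s) (by norm_num) (by norm_num) (by norm_num) hms
    (by show ((-s).2 + 3 * (-s).1 - (1 + 3)) % 6 = 0
        simp only [Prod.snd_neg, Prod.fst_neg]
        omega)
  have hW2 := hED2 z hz0 s.1 s.2 hm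
  have hW := gen (-s.1) (-s.2) _ _ _ _ (by push_cast; rw [abs_neg]) hW1 hW2 (by
    intro n
    have := hpt z hz (-s.1) (-s.2) n (-1) 3 (Real.pi ^ 2 / 36) (by norm_num) (by omega)
      (by omega) (by norm_num) (hEB4 z).2.2.2.1
    unfold gW0
    simp only [Prod.snd_neg, Prod.fst_neg]
    simpa using this)
  have eY' : Yc z⁻¹ s = Xs z⁻¹ 1 1 1 0 1 s := rfl
  have eW' : Wc z⁻¹ s = Xs z⁻¹ 1 3 1 (-1) 1 (-s) := rfl
  rw [← eY'] at hY
  rw [← eW'] at hW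
  have hpos : 0 ≤ C * K * z ^ 4 * Real.exp (-(Real.pi / 3 * z)) / |(s.2:ℝ)| := by positivity
  refine ⟨?_, ?_⟩
  · refine hY.trans ?_
    calc C * K * z ^ 4 * Real.exp (-(Real.pi / 3 * z)) / |(s.2:ℝ)|
        ≤ 2 * (C * K * z ^ 4 * Real.exp (-(Real.pi / 3 * z)) / |(s.2:ℝ)|) := by linarith
      _ = _ := by ring
  · have e : (Wc z⁻¹ s - Yc z⁻¹ s) - Complex.I * (z:ℂ) ^ 2 * (eV z s : ℂ) =
        (Wc z⁻¹ s - Complex.I * (z:ℂ) ^ 2 * ((eY z (s.1, s.2) + eV z (s.1, s.2) : ℝ) : ℂ)) -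
        (Yc z⁻¹ s - Complex.I * (z:ℂ) ^ 2 * (eY z (s.1, s.2) : ℂ)) := by
      push_cast
      ring
    rw [e]
    refine (norm_sub_le _ _).trans ?_
    calc _ ≤ C * K * z ^ 4 * Real.exp (-(Real.pi / 3 * z)) / |(s.2:ℝ)| +
        C * K * z ^ 4 * Real.exp (-(Real.pi / 3 * z)) / |(s.2:ℝ)| := add_le_add hW hY
      _ = _ := by ring

end Pool.Agent.Helper18.EC.E_ED4
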