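import Pool.Agent.Helper38.EC.Goals

/-!
# Packet VOL of MP_ecc237_nt, Part I: the Volterra estimate.
-/

set_option autoImplicit false

open MeasureTheory Filter Topology Set Complex
open EC237 EC237.PI

namespace Pool.Agent.Helper18.EC.I_VOL

/-- The square root on the slit plane. -/
noncomputable def q (z : ℂ) : ℂ := Complex.exp (Complex.log z / 2)

lemma q_sq {z : ℂ} (hz : z ≠ 0) : q z ^ 2 = z := by
  unfold q
  rw [← Complex.exp_nat_mul]
  have h : ((2 : ℕ) : ℂ) * (Complex.log z / 2) = Complex.log z := by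
    push_cast; ring
  rw [h]
  exact Complex.exp_log hz

lemma q_ne (z : ℂ) : q z ≠ 0 := Complex.exp_ne_zero _

lemma q_deriv {z : ℂ} (hz : z ∈ slitPlane) : HasDerivAt q (q z * (z⁻¹ / 2)) z := by
  unfold q
  exact ((Complex.hasDerivAt_log hz).div_const 2).cexp

lemma norm_q {z : ℂ} (hz : z ≠ 0) : ‖q z‖ = Real.sqrt ‖z‖ := by
  have h : ‖q z‖ ^ 2 = ‖z‖ := by
    rw [← norm_pow, q_sq hz]
  rw [← h, Real.sqrt_sq (norm_nonneg _)]

lemma Qd_slit {z : ℂ} (hz : z ∈ Qd) : z ∈ slitPlane := by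
  obtain ⟨h1, h2, h3⟩ := hz
  rw [Complex.mem_slitPlane_iff]
  by_cases h : 0 < z.re
  · exact Or.inl h
  · right
    intro him
    apply h3
    apply Complex.ext
    · simp; linarith
    · simpa using him

lemma u_re (t : ℂ) (s : ℝ) : (t - I * s).re = t.re := by simp

lemma u_im (t : ℂ) (s : ℝ) : (t - I * s).im = t.im - s := by simp

lemma u_mem {t : ℂ} (ht : t ∈ Qd) {s : ℝ} (hs : 0 ≤ s) : t - I * s ∈ Qd := by
  obtain ⟨h1, h2, h3⟩ := ht
  refine ⟨?_, ?_, ?_⟩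
  · rw [u_re]; exact h1
  · rw [u_im]; linarith
  · intro h
    have hr := congrArg Complex.re h
    have hi := congrArg Complex.im h
    rw [u_re] at hr
    rw [u_im] at hi
    simp at hr hi
    apply h3
    apply Complex.ext
    · simpa using hr
    · simp; linarith

lemma u_norm {t : ℂ} (ht : t ∈ Qd) {s : ℝ} (hs : 0 ≤ s) :
    ‖t‖ ^ 2 + s ^ 2 ≤ ‖t - I * s‖ ^ 2 := by
  rw [← Complex.normSq_eq_norm_sq, ← Complex.normSq_eq_norm_sq, Complex.normSq_apply,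
    Complex.normSq_apply, u_re, u_im]
  have := ht.2.1
  nlinarith [mul_nonneg hs (neg_nonneg.mpr this)]

/-- `B_u · u`. -/
noncomputable def P (t u : ℂ) : ℂ := Ic t * (u * deriv Kc u) - Kc t * (u * deriv Ic u)

/-- `X = t^{1/2} u^{1/2} B`. -/
noncomputable def X (t : ℂ) (s : ℝ) : ℂ := q t * (q (t - I * s) * BB t (t - I * s))

/-- the derivative of `X`. -/
noncomputable def X1 (t : ℂ) (s : ℝ) : ℂ :=
  q t * (-I * ((q (t - I * s) / (t - I * s)) * (BB t (t - I * s) / 2 + P t (t - I * s))))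

lemma hasDerivAt_u (t : ℂ) (s : ℝ) : HasDerivAt (fun s : ℝ => t - I * (s : ℂ)) (-I) s := by
  have h : HasDerivAt (fun s : ℝ => (s : ℂ)) 1 s := Complex.ofRealCLM.hasDerivAt
  have := (h.const_mul I).const_sub t
  simpa using this

lemma BB_deriv (hS : G_SERA) (hW : G_WR) (t : ℂ) {u : ℂ} (hu : u ∈ slitPlane) :
    HasDerivAt (fun u => BB t u) (P t u / u) u := by
  have hne : u ≠ 0 := Complex.slitPlane_ne_zero hu
  have hK : HasDerivAt Kc (deriv Kc u) u := (hW.1 u hu).1.hasDerivAt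
  have hI : HasDerivAt Ic (deriv Ic u) u := (hS.1 u).hasDerivAt
  have := (hK.const_mul (Ic t)).sub (hI.const_mul (Kc t))
  have e : P t u / u = Ic t * deriv Kc u - Kc t * deriv Ic u := by
    unfold P
    field_simp
  rw [e]
  exact this

lemma P_deriv (hS : G_SERA) (hW : G_WR) (t : ℂ) {u : ℂ} (hu : u ∈ slitPlane) :
    HasDerivAt (fun u => P t u) (u * BB t u) u := by
  have hK := (hW.1 u hu).2
  have hI := hS.2.2.1 u
  have := (hK.const_mul (Ic t)).sub (hI.const_mul (Kc t))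
  have e : u * BB t u = Ic t * (u * Kc u) - Kc t * (u * Ic u) := by
    unfold BB
    ring
  rw [e]
  exact this

lemma X_deriv (hS : G_SERA) (hW : G_WR) {t : ℂ} (ht : t ∈ Qd) {s : ℝ} (hs : 0 ≤ s) :
    HasDerivAt (X t) (X1 t s) s := by
  have hu := u_mem ht hs
  have hsl := Qd_slit hu
  have hne : t - I * (s : ℂ) ≠ 0 := hu.2.2
  have h1 : HasDerivAt (fun u => q u * BB t u)
      (q (t - I * s) * ((t - I * s)⁻¹ / 2) * BB t (t - I * s) +
        q (t - I * s) * (P t (t - I * s) / (t - I * s))) (t - I * s) :=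
    (q_deriv hsl).mul (BB_deriv hS hW t hsl)
  have h2 := (h1.comp s (hasDerivAt_u t s)).const_mul (q t)
  have e : X1 t s = q t * ((q (t - I * s) * ((t - I * s)⁻¹ / 2) * BB t (t - I * s) +
        q (t - I * s) * (P t (t - I * s) / (t - I * s))) * (-I)) := by
    unfold X1
    field_simp
  rw [e]
  exact h2

lemma X1_deriv (hS : G_SERA) (hW : G_WR) {t : ℂ} (ht : t ∈ Qd) {s : ℝ} (hs : 0 ≤ s) :
    HasDerivAt (X1 t) (-X t s + X t s / (4 * (t - I * s) ^ 2)) s := by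
  have hu := u_mem ht hs
  have hsl := Qd_slit hu
  have hne : t - I * (s : ℂ) ≠ 0 := hu.2.2
  have ha := (q_deriv hsl).div (hasDerivAt_id (t - I * (s : ℂ))) hne
  have hb := ((BB_deriv hS hW t hsl).div_const 2).add (P_deriv hS hW t hsl)
  have hc := ((((ha.mul hb).comp s (hasDerivAt_u t s)).const_mul (-I))).const_mul (q t)
  refine HasDerivAt.congr_deriv hc ?_
  unfold X
  simp only [id, Pi.add_apply, Pi.div_apply]
  generalize t - I * (s : ℂ) = u at *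
  generalize BB t u = B
  generalize P t u = p
  generalize q u = r
  generalize q t = r0
  have hI : (I : ℂ) * I = -1 := Complex.I_mul_I
  field_simp
  ring_nf
  simp only [Complex.I_sq]
  ring

lemma X_zero {t : ℂ} : X t 0 = 0 := by
  unfold X BB
  simp only [Complex.ofReal_zero, mul_zero, sub_zero]
  ring

lemma X1_zero (hW : G_WR) {t : ℂ} (ht : t ∈ Qd) : X1 t 0 = I := by
  have hsl := Qd_slit ht
  have hne : t ≠ 0 := ht.2.2
  have hB : BB t t = 0 := by unfold BB; ring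
  have hP : P t t = -1 := by
    have := hW.2 t hsl
    unfold P
    have e : Ic t * (t * deriv Kc t) - Kc t * (t * deriv Ic t)
        = t * (Ic t * deriv Kc t - Kc t * deriv Ic t) := by ring
    rw [e, this]
    field_simp
  have hq := q_sq hne
  unfold X1
  simp only [Complex.ofReal_zero, mul_zero, sub_zero]
  rw [hB, hP]
  have e : q t * (-I * (q t / t * (0 / 2 + -1))) = I * (q t ^ 2 / t) := by ring
  rw [e, hq, div_self hne, mul_one]

lemma X_bound (hK : G_KBD) {C : ℝ} (hC : ∀ z ∈ Qd, ‖Ic z‖ * Real.sqrt ‖z‖ ≤ C * Real.exp z.re)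
    {t : ℂ} (ht : t ∈ Qd) {s : ℝ} (hs : 0 ≤ s) : ‖X t s‖ ≤ 4 * C := by
  have hu := u_mem ht hs
  have hre : (t - I * (s:ℂ)).re = t.re := u_re t s
  have a1 := hC t ht
  have a2 := hC _ hu
  have b1 := hK t ht.1 ht.2.2
  have b2 := hK _ hu.1 hu.2.2
  rw [hre] at a2 b2
  unfold X BB
  rw [norm_mul, norm_mul, norm_q ht.2.2, norm_q hu.2.2]
  generalize t - I * (s : ℂ) = u at *
  have h1 : ‖Ic t * Kc u - Kc t * Ic u‖ ≤ ‖Ic t‖ * ‖Kc u‖ + ‖Kc t‖ * ‖Ic u‖ := by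
    refine (norm_sub_le _ _).trans ?_
    rw [norm_mul, norm_mul]
  have hexp : Real.exp t.re * Real.exp (-t.re) = 1 := by
    rw [← Real.exp_add]; simp
  have hC0 : 0 ≤ C * Real.exp t.re := le_trans (by positivity) a1
  calc Real.sqrt ‖t‖ * (Real.sqrt ‖u‖ * ‖Ic t * Kc u - Kc t * Ic u‖)
      ≤ Real.sqrt ‖t‖ * (Real.sqrt ‖u‖ * (‖Ic t‖ * ‖Kc u‖ + ‖Kc t‖ * ‖Ic u‖)) := by
        gcongr
    _ = (‖Ic t‖ * Real.sqrt ‖t‖) * (‖Kc u‖ * Real.sqrt ‖u‖) +
        (‖Kc t‖ * Real.sqrt ‖t‖) * (‖Ic u‖ * Real.sqrt ‖u‖) := by ring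
    _ ≤ (C * Real.exp t.re) * (2 * Real.exp (-t.re)) +
        (2 * Real.exp (-t.re)) * (C * Real.exp t.re) := by
        gcongr
    _ = 4 * C * (Real.exp t.re * Real.exp (-t.re)) := by ring
    _ = 4 * C := by rw [hexp, mul_one]

lemma g_bound (hS : G_SERA) (hW : G_WR) (hK : G_KBD) {C : ℝ}
    (hC : ∀ z ∈ Qd, ‖Ic z‖ * Real.sqrt ‖z‖ ≤ C * Real.exp z.re)
    {t : ℂ} (ht : t ∈ Qd) {η : ℝ} (hη : 0 ≤ η) :
    ‖X t η - I * Real.sin η‖ ≤ 2 * C / ‖t‖ := by
  have hT : 0 < ‖t‖ := norm_pos_iff.mpr ht.2.2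
  set T := ‖t‖ with hTdef
  have hC0 : 0 ≤ C := by
    have a1 := hC t ht
    have : 0 ≤ C * Real.exp t.re := le_trans (by positivity) a1
    exact nonneg_of_mul_nonneg_left this (Real.exp_pos _)
  -- the function Φ
  let Φ : ℝ → ℂ := fun s => (X1 t s - I * Real.cos s) * Real.sin (η - s) +
    (X t s - I * Real.sin s) * Real.cos (η - s)
  let Φ' : ℝ → ℂ := fun s => X t s / (4 * (t - I * s) ^ 2) * Real.sin (η - s)
  have hΦ : ∀ s ∈ Icc (0:ℝ) η, HasDerivAt Φ (Φ' s) s := by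
    intro s hs
    have hs0 : 0 ≤ s := hs.1
    have c1 : HasDerivAt (fun s : ℝ => ((Real.cos s : ℝ) : ℂ)) ((-Real.sin s : ℝ) : ℂ) s :=
      (Real.hasDerivAt_cos s).ofReal_comp
    have c2 : HasDerivAt (fun s : ℝ => ((Real.sin s : ℝ) : ℂ)) ((Real.cos s : ℝ) : ℂ) s :=
      (Real.hasDerivAt_sin s).ofReal_comp
    have l : HasDerivAt (fun s : ℝ => η - s) (-1) s := by
      simpa using (hasDerivAt_id s).const_sub η
    have c3 : HasDerivAt (fun s : ℝ => ((Real.sin (η - s) : ℝ) : ℂ))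
        ((Real.cos (η - s) * (-1) : ℝ) : ℂ) s := (l.sin).ofReal_comp
    have c4 : HasDerivAt (fun s : ℝ => ((Real.cos (η - s) : ℝ) : ℂ))
        ((-Real.sin (η - s) * (-1) : ℝ) : ℂ) s := (l.cos).ofReal_comp
    have d1 := ((X1_deriv hS hW ht hs0).sub (c1.const_mul I)).mul c3
    have d2 := ((X_deriv hS hW ht hs0).sub (c2.const_mul I)).mul c4
    have d3 := d1.add d2
    refine HasDerivAt.congr_deriv d3 ?_
    simp only [Φ', Pi.sub_apply]
    push_cast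
    ring
  have hB : ∀ s : ℝ, HasDerivAt (fun s => C / T * Real.arctan (s / T))
      (C / T * (1 / (1 + (s / T) ^ 2) * (1 / T))) s := by
    intro s
    exact (((hasDerivAt_id s).div_const T).arctan).const_mul (C / T)
  have key : ∀ s ∈ Icc (0:ℝ) η, ‖Φ s‖ ≤ (fun s => C / T * Real.arctan (s / T)) s := by
    refine fun s hs => image_norm_le_of_norm_deriv_right_le_deriv_boundary (f := Φ) (f' := Φ')
      (a := 0) (b := η) (B := fun s => C / T * Real.arctan (s / T))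
      (B' := fun s => C / T * (1 / (1 + (s / T) ^ 2) * (1 / T))) ?_ ?_ ?_ ?_ ?_ hs
    · intro s hs
      exact (hΦ s hs).continuousAt.continuousWithinAt
    · intro s hs
      exact (hΦ s ⟨hs.1, hs.2.le⟩).hasDerivWithinAt
    · simp only [Φ]
      rw [X_zero, X1_zero hW ht]
      simp
    · exact hB
    · intro s hs
      simp only [Φ']
      have hs0 : 0 ≤ s := hs.1
      have hXb := X_bound hK hC ht hs0
      have hun := u_norm ht hs0
      rw [norm_mul, norm_div, norm_mul, norm_pow]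
      have hsin : ‖((Real.sin (η - s) : ℝ) : ℂ)‖ ≤ 1 := by
        rw [Complex.norm_real]
        exact Real.abs_sin_le_one _
      have h4 : ‖(4 : ℂ)‖ = 4 := by norm_num
      rw [h4]
      have hden : 0 < T ^ 2 + s ^ 2 := by positivity
      calc ‖X t s‖ / (4 * ‖t - I * (s:ℂ)‖ ^ 2) * ‖((Real.sin (η - s) : ℝ) : ℂ)‖
          ≤ ‖X t s‖ / (4 * ‖t - I * (s:ℂ)‖ ^ 2) * 1 := by gcongr
        _ ≤ (4 * C) / (4 * (T ^ 2 + s ^ 2)) := by
            rw [mul_one]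
            gcongr
        _ = C / T * (1 / (1 + (s / T) ^ 2) * (1 / T)) := by
            field_simp
  have hfin := key η ⟨hη, le_refl _⟩
  have hval : Φ η = X t η - I * Real.sin η := by
    simp only [Φ]
    simp
  rw [hval] at hfin
  refine hfin.trans ?_
  have hat : Real.arctan (η / T) ≤ 2 := by
    have := Real.arctan_lt_pi_div_two (η / T)
    have := Real.pi_lt_four
    linarith
  calc C / T * Real.arctan (η / T) ≤ C / T * 2 := by gcongr
    _ = 2 * C / T := by ring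

/-- Packet VOL. -/
theorem thm (hS : G_SERA) (hW : G_WR) (hK : G_KBD) (hI : G_IBD) : EC237.PI.G_VOL := by
  obtain ⟨C, hC⟩ := hI
  refine ⟨6 * (4 * C + 1) ^ 5 * (2 * C), ?_⟩
  intro t ht h1 η hη
  have hC0 : 0 ≤ C := by
    have a1 := hC t ht
    have : 0 ≤ C * Real.exp t.re := le_trans (by positivity) a1
    exact nonneg_of_mul_nonneg_left this (Real.exp_pos _)
  have hT : 0 < ‖t‖ := norm_pos_iff.mpr ht.2.2
  have hu := u_mem ht hη
  have hX := X_bound hK hC ht hη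
  have hg := g_bound hS hW hK hC ht hη
  set x := X t η with hx
  set y : ℂ := I * Real.sin η with hy
  have hYn : ‖y‖ ≤ 1 := by
    rw [hy, norm_mul, Complex.norm_I, one_mul, Complex.norm_real]
    exact Real.abs_sin_le_one _
  have hM1 : ‖x‖ ≤ 4 * C + 1 := by linarith
  have hM2 : ‖y‖ ≤ 4 * C + 1 := by linarith
  have e1 : t ^ 3 * (t - I * η) ^ 3 * BB t (t - I * η) ^ 6 = x ^ 6 := by
    rw [hx]
    unfold X
    have q1 := q_sq ht.2.2
    have q2 := q_sq hu.2.2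
    generalize BB t (t - I * (η:ℂ)) = B
    calc t ^ 3 * (t - I * (η:ℂ)) ^ 3 * B ^ 6
        = (q t ^ 2) ^ 3 * (q (t - I * (η:ℂ)) ^ 2) ^ 3 * B ^ 6 := by rw [q1, q2]
      _ = _ := by ring
  have e2 : ((Real.sin η ^ 6 : ℝ) : ℂ) = -y ^ 6 := by
    rw [hy]
    push_cast
    have : (I : ℂ) ^ 6 = -1 := by
      have : (I : ℂ) ^ 6 = (I ^ 2) ^ 3 := by ring
      rw [this, Complex.I_sq]; norm_num
    rw [mul_pow, this]
    ring
  rw [e1, e2]
  have e3 : x ^ 6 + -y ^ 6 = (x - y) * (x ^ 5 + x ^ 4 * y + x ^ 3 * y ^ 2 + x ^ 2 * y ^ 3 +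
      x * y ^ 4 + y ^ 5) := by ring
  rw [e3, norm_mul]
  set M := 4 * C + 1 with hM
  have hM0 : 0 ≤ M := by linarith
  have hb : ‖x ^ 5 + x ^ 4 * y + x ^ 3 * y ^ 2 + x ^ 2 * y ^ 3 + x * y ^ 4 + y ^ 5‖ ≤
      6 * M ^ 5 := by
    have n1 : ‖x ^ 5‖ ≤ M ^ 5 := by rw [norm_pow]; gcongr
    have n2 : ‖x ^ 4 * y‖ ≤ M ^ 4 * M := by rw [norm_mul, norm_pow]; gcongr
    have n3 : ‖x ^ 3 * y ^ 2‖ ≤ M ^ 3 * M ^ 2 := by rw [norm_mul, norm_pow, norm_pow]; gcongr
    have n4 : ‖x ^ 2 * y ^ 3‖ ≤ M ^ 2 * M ^ 3 := by rw [norm_mul, norm_pow, norm_pow]; gcongr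
    have n5 : ‖x * y ^ 4‖ ≤ M * M ^ 4 := by rw [norm_mul, norm_pow]; gcongr
    have n6 : ‖y ^ 5‖ ≤ M ^ 5 := by rw [norm_pow]; gcongr
    have := norm_add_le (x ^ 5 + x ^ 4 * y + x ^ 3 * y ^ 2 + x ^ 2 * y ^ 3 + x * y ^ 4) (y ^ 5)
    have := norm_add_le (x ^ 5 + x ^ 4 * y + x ^ 3 * y ^ 2 + x ^ 2 * y ^ 3) (x * y ^ 4)
    have := norm_add_le (x ^ 5 + x ^ 4 * y + x ^ 3 * y ^ 2) (x ^ 2 * y ^ 3)
    have := norm_add_le (x ^ 5 + x ^ 4 * y) (x ^ 3 * y ^ 2)
    have := norm_add_le (x ^ 5) (x ^ 4 * y)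
    nlinarith
  calc ‖x - y‖ * ‖x ^ 5 + x ^ 4 * y + x ^ 3 * y ^ 2 + x ^ 2 * y ^ 3 + x * y ^ 4 + y ^ 5‖
      ≤ (2 * C / ‖t‖) * (6 * M ^ 5) := by gcongr
    _ = 6 * M ^ 5 * (2 * C) / ‖t‖ := by ring

end Pool.Agent.Helper18.EC.I_VOL
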